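import Pool.Agent.Lib.MP_abd978_an.Interfaces

/-!
Module CUT: cutoff functions between concentric balls.
-/

set_option autoImplicit false

open MeasureTheory Metric Set Filter Topology ContDiff
open scoped Gradient RealInnerProductSpace

namespace Pool.Agent.Lib.MP_abd978_an.H10

theorem deriv_smoothTransition_bound :
    ∃ M : ℝ, 0 < M ∧ ∀ x : ℝ, |deriv Real.smoothTransition x| ≤ M := by
  have hsm : ContDiff ℝ ∞ Real.smoothTransition := Real.smoothTransition.contDiff
  have hc : Continuous (deriv Real.smoothTransition) := hsm.continuous_deriv (by simp)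
  obtain ⟨M, hM⟩ := (isCompact_Icc (a := (0 : ℝ)) (b := 1)).exists_bound_of_continuousOn
    hc.continuousOn
  refine ⟨max M 1, by positivity, fun x => ?_⟩
  by_cases hx : x ∈ Icc (0 : ℝ) 1
  · exact (hM x hx).trans (le_max_left _ _)
  · have h0 : deriv Real.smoothTransition x = 0 := by
      rcases not_and_or.1 hx with h | h
      · have h' : x < 0 := not_le.1 h
        have he : Real.smoothTransition =ᶠ[𝓝 x] fun _ => (0 : ℝ) := by
          filter_upwards [Iio_mem_nhds h'] with y hy
          exact Real.smoothTransition.zero_of_nonpos (le_of_lt hy)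
        rw [he.deriv_eq]
        simp
      · have h' : 1 < x := not_le.1 h
        have he : Real.smoothTransition =ᶠ[𝓝 x] fun _ => (1 : ℝ) := by
          filter_upwards [Ioi_mem_nhds h'] with y hy
          exact Real.smoothTransition.one_of_one_le (le_of_lt hy)
        rw [he.deriv_eq]
        simp
    rw [h0, abs_zero]
    positivity

/-- the module CUT -/
theorem cut : CutStatement := by
  intro n
  obtain ⟨M, hM0, hM⟩ := deriv_smoothTransition_bound
  refine ⟨2 * M, by positivity, fun z s t hs hst => ?_⟩
  have ht : 0 < t := hs.trans hst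
  have hden : 0 < t ^ 2 - s ^ 2 := by nlinarith
  let q : E n → ℝ := fun x => (t ^ 2 - ‖x - z‖ ^ 2) / (t ^ 2 - s ^ 2)
  have hq : ContDiff ℝ ∞ q := by
    refine (contDiff_const.sub ?_).div_const _
    exact (contDiff_id.sub contDiff_const).norm_sq ℝ
  let η : E n → ℝ := fun x => Real.smoothTransition (q x)
  have hη : ContDiff ℝ ∞ η := Real.smoothTransition.contDiff.comp hq
  have hzero : ∀ x, x ∉ closedBall z t → η x = 0 := by
    intro x hx
    have h1 : t < ‖x - z‖ := by
      rw [mem_closedBall, dist_eq_norm, not_le] at hx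
      exact hx
    refine Real.smoothTransition.zero_of_nonpos ?_
    refine div_nonpos_of_nonpos_of_nonneg ?_ hden.le
    nlinarith
  have hsupp : tsupport η ⊆ closedBall z t := by
    refine closure_minimal ?_ isClosed_closedBall
    intro x hx
    by_contra hc
    exact hx (hzero x hc)
  refine ⟨η, ⟨hη, ?_, subset_univ _⟩, ?_, ?_, hsupp, ?_⟩
  · exact (isCompact_closedBall z t).of_isClosed_subset (isClosed_tsupport η) hsupp
  · intro x
    exact ⟨Real.smoothTransition.nonneg _, Real.smoothTransition.le_one _⟩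
  · intro x hx
    have h1 : ‖x - z‖ ≤ s := by
      rw [mem_closedBall, dist_eq_norm] at hx
      exact hx
    refine Real.smoothTransition.one_of_one_le ?_
    rw [le_div_iff₀ hden]
    nlinarith [norm_nonneg (x - z)]
  · intro x
    have hts : 0 < t - s := sub_pos.2 hst
    by_cases hx : x ∈ closedBall z t
    · have h1 : ‖x - z‖ ≤ t := by
        rw [mem_closedBall, dist_eq_norm] at hx
        exact hx
      have hst' : ContDiff ℝ ∞ Real.smoothTransition := Real.smoothTransition.contDiff
      have hg : ∇ η x = deriv Real.smoothTransition (q x) • ∇ q x :=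
        grad_comp (hq.differentiable (by simp) x)
          (hst'.differentiable (by simp) _)
      have hqd : HasFDerivAt q ((t ^ 2 - s ^ 2)⁻¹ • (-(2 • (innerSL ℝ (x - z)) : E n →L[ℝ] ℝ))) x := by
        have h2 : HasFDerivAt (fun y : E n => ‖y - z‖ ^ 2) (2 • (innerSL ℝ (x - z))) x := by
          have h3 := (hasStrictFDerivAt_norm_sq (x - z)).hasFDerivAt
          have h4 : HasFDerivAt (fun y : E n => y - z) (ContinuousLinearMap.id ℝ (E n)) x :=
            (hasFDerivAt_id x).sub_const z
          have h5 := h3.comp x h4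
          rw [ContinuousLinearMap.comp_id] at h5
          exact h5
        have h6 : HasFDerivAt (fun y : E n => t ^ 2 - ‖y - z‖ ^ 2)
            (-(2 • (innerSL ℝ (x - z)))) x := by
          simpa using h2.const_sub (t ^ 2)
        have h7 := h6.const_smul (t ^ 2 - s ^ 2)⁻¹
        refine h7.congr_of_eventuallyEq (Eventually.of_forall fun y => ?_)
        show (t ^ 2 - ‖y - z‖ ^ 2) / (t ^ 2 - s ^ 2) = (t ^ 2 - s ^ 2)⁻¹ • (t ^ 2 - ‖y - z‖ ^ 2)
        rw [smul_eq_mul]
        ring
      have hqn : ‖∇ q x‖ ≤ 2 / (t - s) := by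
        rw [norm_grad, hqd.fderiv, norm_smul, norm_neg]
        have h8 : ‖(2 • (innerSL ℝ (x - z)) : E n →L[ℝ] ℝ)‖ ≤ 2 * ‖x - z‖ := by
          refine (norm_nsmul_le).trans ?_
          rw [innerSL_apply_norm]
          simp
        have h9 : ‖(t ^ 2 - s ^ 2)⁻¹‖ = (t ^ 2 - s ^ 2)⁻¹ := by
          rw [Real.norm_of_nonneg (inv_nonneg.2 hden.le)]
        rw [h9]
        calc (t ^ 2 - s ^ 2)⁻¹ * ‖(2 • (innerSL ℝ (x - z)) : E n →L[ℝ] ℝ)‖
            ≤ (t ^ 2 - s ^ 2)⁻¹ * (2 * t) := by
              refine mul_le_mul_of_nonneg_left (h8.trans ?_) (inv_nonneg.2 hden.le)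
              linarith
          _ ≤ 2 / (t - s) := by
              rw [inv_mul_eq_div, div_le_div_iff₀ hden hts]
              nlinarith
      rw [hg, norm_smul, Real.norm_eq_abs]
      calc |deriv Real.smoothTransition (q x)| * ‖∇ q x‖ ≤ M * (2 / (t - s)) :=
            mul_le_mul (hM _) hqn (norm_nonneg _) hM0.le
        _ = 2 * M / (t - s) := by ring
    · rw [grad_eq_zero_of_notMem (fun h => hx (hsupp h)), norm_zero]
      positivity

end Pool.Agent.Lib.MP_abd978_an.H10
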